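import Mathlib
import Pool.Agent.R312.U

/-!
# Integrality of the normalised (5k+1) sums with ratio -192

A WZ pair gives, with `m = n-k-1`,
`∑_{k<n} (5k+1) C(2k,k)² C(3k,k) (-192)^(n-1-k) = n (2n+1) C(2n,n) ∑_{k<n} (-3)^k u_n(k) / 3`,
`u_n(k) = (3n)! (2n+2k)! (2m)! / (2 (2n+1)! (n+k)! m!² (2n+k)!)`.
For `n ≥ 2` all `u_n(k)` are integers and `3 ∣ u_n(0)` iff `2n+1` is not a power of `3`.
-/

set_option autoImplicit false

namespace Pool.Agent.Results.MP_6a8d80_nt.Integrality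

open Finset Nat Pool.Agent.R312.WZ

/-- right-hand summand -/
noncomputable def T (n k : ℕ) : ℚ :=
  if k < n then (-3) ^ k * ((3 * n)! : ℚ) * ((2 * n + 2 * k)! : ℚ) * ((2 * (n - k - 1))! : ℚ) /
    (6 * ((n - 1)! : ℚ) * (n ! : ℚ) * ((n + k)! : ℚ) * ((n - k - 1)! : ℚ) ^ 2 * ((2 * n + k)! : ℚ))
  else 0

/-- telescoping function -/
noncomputable def Φ (n k : ℕ) : ℚ :=
  if k ≤ n then (-3) ^ k * ((3 * n)! : ℚ) * ((2 * n + 2 * k)! : ℚ) * ((2 * (n - k))! : ℚ) *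
    (10 * (n : ℚ) ^ 2 + 2 * n * k + 7 * n + 1) /
    ((n ! : ℚ) ^ 2 * ((n + k)! : ℚ) * ((n - k)! : ℚ) ^ 2 * ((2 * n + k + 1)! : ℚ))
  else 0

theorem wz (n k : ℕ) (hk : k ≤ n) : T (n + 1) k - (-192) * T n k = Φ n k - Φ n (k + 1) := by
  obtain ⟨d, rfl⟩ := Nat.exists_eq_add_of_le hk
  rcases d with _ | e
  · have h1 : T (k + 0 + 1) k = (-3) ^ k * ((3 * k + 3)! : ℚ) * ((4 * k + 2)! : ℚ) /
        (6 * (k ! : ℚ) * ((k + 1)! : ℚ) * ((2 * k + 1)! : ℚ) * ((3 * k + 2)! : ℚ)) := by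
      unfold T
      rw [if_pos (by omega)]
      rw [show 3 * (k + 0 + 1) = 3 * k + 3 by ring, show 2 * (k + 0 + 1) + 2 * k = 4 * k + 2 by ring,
        show k + 0 + 1 - k - 1 = 0 by omega, show k + 0 + 1 - 1 = k by omega,
        show k + 0 + 1 + k = 2 * k + 1 by ring, show 2 * (k + 0 + 1) + k = 3 * k + 2 by ring]
      simp
    have h2 : T (k + 0) k = 0 := by unfold T; rw [if_neg (by omega)]
    have h3 : Φ (k + 0) (k + 1) = 0 := by unfold Φ; rw [if_neg (by omega)]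
    have h4 : Φ (k + 0) k = (-3) ^ k * ((3 * k)! : ℚ) * ((4 * k)! : ℚ) *
        (12 * (k : ℚ) ^ 2 + 7 * k + 1) /
        ((k ! : ℚ) ^ 2 * ((2 * k)! : ℚ) * ((3 * k + 1)! : ℚ)) := by
      unfold Φ
      rw [if_pos (by omega)]
      rw [show 2 * (k + 0) + 2 * k = 4 * k by ring, show k + 0 - k = 0 by omega,
        show 2 * (k + 0) + k + 1 = 3 * k + 1 by ring, show k + 0 + k = 2 * k by ring]
      simp
      ring
    rw [h1, h2, h3, h4, fs3, fs2 (4 * k), fs k, fs (2 * k), fs2 (3 * k), fs (3 * k)]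
    have z1 := fz k
    have z2 := fz (2 * k)
    have z3 := fz (3 * k)
    have z4 := fz (4 * k)
    push_cast
    have z5 : (k : ℚ) + 1 ≠ 0 := by positivity
    have z6 : 2 * (k : ℚ) + 1 ≠ 0 := by positivity
    have z7 : 3 * (k : ℚ) + 1 ≠ 0 := by positivity
    have z8 : 3 * (k : ℚ) + 2 ≠ 0 := by positivity
    field_simp
    ring
  · have h1 : T (k + (e + 1) + 1) k = (-3) ^ k * ((3 * (k + e) + 6)! : ℚ) *
        ((4 * k + 2 * e + 4)! : ℚ) * ((2 * e + 2)! : ℚ) /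
        (6 * ((k + e + 1)! : ℚ) * ((k + e + 2)! : ℚ) * ((2 * k + e + 2)! : ℚ) *
          ((e + 1)! : ℚ) ^ 2 * ((3 * k + 2 * e + 4)! : ℚ)) := by
      unfold T
      rw [if_pos (by omega)]
      rw [show 3 * (k + (e + 1) + 1) = 3 * (k + e) + 6 by ring,
        show 2 * (k + (e + 1) + 1) + 2 * k = 4 * k + 2 * e + 4 by ring,
        show k + (e + 1) + 1 - k - 1 = e + 1 by omega,
        show k + (e + 1) + 1 - 1 = k + e + 1 by omega,
        show k + (e + 1) + 1 + k = 2 * k + e + 2 by ring,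
        show 2 * (k + (e + 1) + 1) + k = 3 * k + 2 * e + 4 by ring,
        show k + (e + 1) + 1 = k + e + 2 by ring, show 2 * (e + 1) = 2 * e + 2 by ring]
    have h2 : T (k + (e + 1)) k = (-3) ^ k * ((3 * (k + e) + 3)! : ℚ) *
        ((4 * k + 2 * e + 2)! : ℚ) * ((2 * e)! : ℚ) /
        (6 * ((k + e)! : ℚ) * ((k + e + 1)! : ℚ) * ((2 * k + e + 1)! : ℚ) *
          (e ! : ℚ) ^ 2 * ((3 * k + 2 * e + 2)! : ℚ)) := by
      unfold T
      rw [if_pos (by omega)]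
      rw [show 3 * (k + (e + 1)) = 3 * (k + e) + 3 by ring,
        show 2 * (k + (e + 1)) + 2 * k = 4 * k + 2 * e + 2 by ring,
        show k + (e + 1) - k - 1 = e by omega,
        show k + (e + 1) - 1 = k + e by omega,
        show k + (e + 1) + k = 2 * k + e + 1 by ring,
        show 2 * (k + (e + 1)) + k = 3 * k + 2 * e + 2 by ring,
        show k + (e + 1) = k + e + 1 by ring]
    have h3 : Φ (k + (e + 1)) (k + 1) = (-3) ^ (k + 1) * ((3 * (k + e) + 3)! : ℚ) *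
        ((4 * k + 2 * e + 4)! : ℚ) * ((2 * e)! : ℚ) *
        (10 * ((k : ℚ) + e + 1) ^ 2 + 2 * ((k : ℚ) + e + 1) * (k + 1)
          + 7 * ((k : ℚ) + e + 1) + 1) /
        (((k + e + 1)! : ℚ) ^ 2 * ((2 * k + e + 2)! : ℚ) * (e ! : ℚ) ^ 2 *
          ((3 * k + 2 * e + 4)! : ℚ)) := by
      unfold Φ
      rw [if_pos (by omega)]
      rw [show 3 * (k + (e + 1)) = 3 * (k + e) + 3 by ring,
        show 2 * (k + (e + 1)) + 2 * (k + 1) = 4 * k + 2 * e + 4 by ring,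
        show k + (e + 1) - (k + 1) = e by omega,
        show k + (e + 1) + (k + 1) = 2 * k + e + 2 by ring,
        show 2 * (k + (e + 1)) + (k + 1) + 1 = 3 * k + 2 * e + 4 by ring,
        show k + (e + 1) = k + e + 1 by ring]
      push_cast
      ring
    have h4 : Φ (k + (e + 1)) k = (-3) ^ k * ((3 * (k + e) + 3)! : ℚ) *
        ((4 * k + 2 * e + 2)! : ℚ) * ((2 * e + 2)! : ℚ) *
        (10 * ((k : ℚ) + e + 1) ^ 2 + 2 * ((k : ℚ) + e + 1) * k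
          + 7 * ((k : ℚ) + e + 1) + 1) /
        (((k + e + 1)! : ℚ) ^ 2 * ((2 * k + e + 1)! : ℚ) * ((e + 1)! : ℚ) ^ 2 *
          ((3 * k + 2 * e + 3)! : ℚ)) := by
      unfold Φ
      rw [if_pos (by omega)]
      rw [show 3 * (k + (e + 1)) = 3 * (k + e) + 3 by ring,
        show 2 * (k + (e + 1)) + 2 * k = 4 * k + 2 * e + 2 by ring,
        show k + (e + 1) - k = e + 1 by omega,
        show k + (e + 1) + k = 2 * k + e + 1 by ring,
        show 2 * (k + (e + 1)) + k + 1 = 3 * k + 2 * e + 3 by ring,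
        show k + (e + 1) = k + e + 1 by ring, show 2 * (e + 1) = 2 * e + 2 by ring]
      push_cast
      ring
    rw [h1, h2, h3, h4,
      show 3 * (k + e) + 6 = 3 * (k + e) + 3 + 3 by ring, fs3 (3 * (k + e) + 3),
      show 4 * k + 2 * e + 4 = 4 * k + 2 * e + 2 + 2 by ring, fs2 (4 * k + 2 * e + 2),
      fs2 (2 * e), fs2 (k + e), fs (k + e),
      show 2 * k + e + 2 = 2 * k + e + 1 + 1 by ring, fs (2 * k + e + 1), fs e,
      show 3 * k + 2 * e + 4 = 3 * k + 2 * e + 2 + 2 by ring, fs2 (3 * k + 2 * e + 2),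
      show 3 * k + 2 * e + 3 = 3 * k + 2 * e + 2 + 1 by ring, fs (3 * k + 2 * e + 2), pow_succ]
    have z1 := fz (3 * (k + e) + 3)
    have z2 := fz (4 * k + 2 * e + 2)
    have z3 := fz (2 * e)
    have z4 := fz (k + e)
    have z5 := fz (2 * k + e + 1)
    have z6 := fz e
    have z7 := fz (3 * k + 2 * e + 2)
    push_cast
    generalize (((3 * (k + e) + 3)! : ℕ) : ℚ) = A1 at *
    generalize (((4 * k + 2 * e + 2)! : ℕ) : ℚ) = A2 at *
    generalize (((2 * e)! : ℕ) : ℚ) = A3 at *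
    generalize (((k + e)! : ℕ) : ℚ) = A4 at *
    generalize (((2 * k + e + 1)! : ℕ) : ℚ) = A5 at *
    generalize ((e ! : ℕ) : ℚ) = A6 at *
    generalize (((3 * k + 2 * e + 2)! : ℕ) : ℚ) = A7 at *
    have y1 : (k : ℚ) + e + 1 ≠ 0 := by positivity
    have y2 : (k : ℚ) + e + 2 ≠ 0 := by positivity
    have y3 : 2 * (k : ℚ) + e + 1 + 1 ≠ 0 := by positivity
    have y4 : (e : ℚ) + 1 ≠ 0 := by positivity
    have y5 : 3 * (k : ℚ) + 2 * e + 2 + 2 ≠ 0 := by positivity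
    have y6 : 3 * (k : ℚ) + 2 * e + 2 + 1 ≠ 0 := by positivity
    field_simp
    ring

theorem T_diag (n : ℕ) : T n n = 0 := by unfold T; rw [if_neg (by omega)]

theorem Φ_diag (n : ℕ) : Φ n (n + 1) = 0 := by unfold Φ; rw [if_neg (by omega)]

theorem Φ_zero (n : ℕ) : Φ n 0
    = (5 * n + 1) * ((2 * n).choose n : ℚ) ^ 2 * ((3 * n).choose n : ℚ) := by
  unfold Φ
  rw [if_pos (by omega), cbq, c3q]
  simp only [mul_zero, add_zero, Nat.sub_zero, Nat.cast_zero, pow_zero, one_mul]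
  rw [fs (2 * n)]
  have z1 := fz n
  have z2 := fz (2 * n)
  have z3 := fz (3 * n)
  push_cast
  have z6 : 2 * (n : ℚ) + 1 ≠ 0 := by positivity
  field_simp
  ring

theorem T_eq (n k t : ℕ) (hk : k < n)
    (ht : (3 * n)! * (2 * n + 2 * k)! * (2 * (n - k - 1))!
      = 2 * ((2 * n + 1)! * (n + k)! * (n - k - 1)! * (n - k - 1)! * (2 * n + k)!) * t) :
    3 * T n k = (n : ℚ) * (2 * n + 1) * ((2 * n).choose n : ℚ) * ((-3) ^ k * t) := by
  unfold T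
  rw [if_pos hk, cbq]
  have h4 : (n ! : ℚ) = n * ((n - 1)! : ℚ) := by
    rw [show n = n - 1 + 1 by omega, Nat.factorial_succ, show n - 1 + 1 - 1 = n - 1 by omega]
    push_cast
    rfl
  have ht' : ((3 * n)! : ℚ) * ((2 * n + 2 * k)! : ℚ) * ((2 * (n - k - 1))! : ℚ)
      = 2 * (((2 * n + 1) * ((2 * n)! : ℚ)) * ((n + k)! : ℚ) * ((n - k - 1)! : ℚ) *
        ((n - k - 1)! : ℚ) * ((2 * n + k)! : ℚ)) * t := by
    rw [Nat.factorial_succ (2 * n)] at ht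
    exact_mod_cast ht
  rw [show (-3 : ℚ) ^ k * ((3 * n)! : ℚ) * ((2 * n + 2 * k)! : ℚ) * ((2 * (n - k - 1))! : ℚ)
    = (-3) ^ k * (((3 * n)! : ℚ) * ((2 * n + 2 * k)! : ℚ) * ((2 * (n - k - 1))! : ℚ)) by ring,
    ht', h4]
  have z1 := fz (n - 1)
  have z2 := fz (n + k)
  have z3 := fz (n - k - 1)
  have z4 := fz (2 * n + k)
  have z5 := fz (2 * n)
  have z6 : (n : ℚ) ≠ 0 := by
    have : n ≠ 0 := by omega
    exact_mod_cast this
  field_simp
  ring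

/-- the sum in question -/
def S (n : ℕ) : ℤ :=
  ∑ k ∈ range n, (5 * (k : ℤ) + 1) * ((2 * k).choose k : ℤ) ^ 2 * ((3 * k).choose k : ℤ) *
    (-192) ^ (n - 1 - k)

/-- the key representation -/
theorem key (n : ℕ) (hn : 2 ≤ n) : ∃ (t : ℕ) (w : ℤ), (3 ∣ t ↔ ∀ m, 2 * n + 1 ≠ 3 ^ m) ∧
    3 * S n = ((n * (2 * n + 1) * (2 * n).choose n : ℕ) : ℤ) * (t - 3 * w) := by
  have hex : ∀ k ∈ range n, ∃ t : ℕ, (3 * n)! * (2 * n + 2 * k)! * (2 * (n - k - 1))!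
      = 2 * ((2 * n + 1)! * (n + k)! * (n - k - 1)! * (n - k - 1)! * (2 * n + k)!) * t :=
    fun k hk => Pool.Agent.R312.U.dvd_two n k hn (Finset.mem_range.mp hk)
  choose! t ht using hex
  refine ⟨t 0, ∑ k ∈ range (n - 1), (-3) ^ k * (t (k + 1) : ℤ),
    Pool.Agent.R312.U.v3_u n (t 0) hn (ht 0 (Finset.mem_range.mpr (by omega))), ?_⟩
  have h := wz_sum (-192) T Φ wz T_diag Φ_diag n
  have h1 : 3 * ∑ k ∈ range n, T n k
      = (n : ℚ) * (2 * n + 1) * ((2 * n).choose n : ℚ) * ∑ k ∈ range n, (-3) ^ k * (t k : ℚ) := by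
    rw [Finset.mul_sum, Finset.mul_sum]
    exact Finset.sum_congr rfl fun k hk => T_eq n k (t k) (Finset.mem_range.mp hk) (ht k hk)
  have h2 : ∑ j ∈ range n, (-192 : ℚ) ^ (n - 1 - j) * Φ j 0 = (S n : ℚ) := by
    unfold S
    push_cast
    refine Finset.sum_congr rfl fun j _ => ?_
    rw [Φ_zero]
    ring
  rw [h, h2] at h1
  have h3 : ∑ k ∈ range n, (-3 : ℚ) ^ k * (t k : ℚ)
      = (t 0 : ℚ) - 3 * ∑ k ∈ range (n - 1), (-3) ^ k * (t (k + 1) : ℚ) := by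
    obtain ⟨m, rfl⟩ : ∃ m, n = m + 1 := ⟨n - 1, by omega⟩
    rw [Finset.sum_range_succ', show m + 1 - 1 = m by omega, Finset.mul_sum, pow_zero, one_mul,
      sub_eq_neg_add, ← Finset.sum_neg_distrib]
    congr 1
    refine Finset.sum_congr rfl fun k _ => ?_
    rw [pow_succ]
    ring
  rw [h3] at h1
  have h4 : ((3 * S n : ℤ) : ℚ) = ((((n * (2 * n + 1) * (2 * n).choose n : ℕ) : ℤ) *
      ((t 0 : ℤ) - 3 * ∑ k ∈ range (n - 1), (-3) ^ k * (t (k + 1) : ℤ)) : ℤ) : ℚ) := by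
    push_cast
    linarith
  exact_mod_cast h4

/-- Q1. For `n ≥ 2`, with `D = n (2n+1) C(2n,n)` and `S` the sum: if `2n+1` is not a power of `3`
then `D ∣ S`, i.e. `a_n = S / D` is an integer; if it is, then `3 a_n` is an integer which is not
divisible by `3`. -/
theorem result (n : ℕ) (hn : 2 ≤ n) :
    ((∀ m : ℕ, 2 * n + 1 ≠ 3 ^ m) →
      ∃ z : ℤ, (((∑ k ∈ range n, (5 * (k : ℤ) + 1) * ((2 * k).choose k : ℤ) ^ 2 *
        ((3 * k).choose k : ℤ) * (-192) ^ (n - 1 - k) : ℤ)) : ℚ) /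
          ((n : ℚ) * (2 * n + 1) * ((2 * n).choose n : ℚ)) = z) ∧
    ((∃ m : ℕ, 2 * n + 1 = 3 ^ m) →
      ∃ z : ℤ, 3 * ((((∑ k ∈ range n, (5 * (k : ℤ) + 1) * ((2 * k).choose k : ℤ) ^ 2 *
        ((3 * k).choose k : ℤ) * (-192) ^ (n - 1 - k) : ℤ)) : ℚ) /
          ((n : ℚ) * (2 * n + 1) * ((2 * n).choose n : ℚ))) = z ∧ ¬ (3 : ℤ) ∣ z) := by
  obtain ⟨t, w, h1, h2⟩ := key n hn
  have hD : (n : ℚ) * (2 * n + 1) * ((2 * n).choose n : ℚ) ≠ 0 := by
    have e1 : (n : ℚ) ≠ 0 := by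
      have : n ≠ 0 := by omega
      exact_mod_cast this
    have e2 : (2 * (n : ℚ) + 1) ≠ 0 := by positivity
    have e3 : ((2 * n).choose n : ℚ) ≠ 0 := by
      have : (2 * n).choose n ≠ 0 := (Nat.choose_pos (by omega)).ne'
      exact_mod_cast this
    exact mul_ne_zero (mul_ne_zero e1 e2) e3
  have h3 : (3 : ℚ) * (S n : ℚ)
      = (n : ℚ) * (2 * n + 1) * ((2 * n).choose n : ℚ) * ((t : ℚ) - 3 * w) := by
    have := congrArg (fun z : ℤ => (z : ℚ)) h2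
    push_cast at this
    exact this
  change ((∀ m : ℕ, 2 * n + 1 ≠ 3 ^ m) → ∃ z : ℤ, ((S n : ℤ) : ℚ) / _ = z) ∧
    ((∃ m : ℕ, 2 * n + 1 = 3 ^ m) → ∃ z : ℤ, 3 * (((S n : ℤ) : ℚ) / _) = z ∧ _)
  constructor
  · intro hm
    obtain ⟨s, rfl⟩ := h1.mpr hm
    refine ⟨(s : ℤ) - w, ?_⟩
    rw [div_eq_iff hD]
    push_cast at h3 ⊢
    linarith
  · rintro ⟨m, hm⟩
    refine ⟨(t : ℤ) - 3 * w, ?_, ?_⟩
    · rw [mul_div_assoc', h3, mul_div_assoc, mul_comm, div_mul_cancel₀]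
      · push_cast
        ring
      · exact hD
    · intro hd
      have h4 : (3 : ℤ) ∣ (t : ℤ) := by
        have := (Int.dvd_add hd (Dvd.intro w rfl : (3 : ℤ) ∣ 3 * w))
        simpa using this
      have h5 : 3 ∣ t := by exact_mod_cast h4
      exact h1.mp h5 m hm

end Pool.Agent.Results.MP_6a8d80_nt.Integrality
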